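import Pool.Agent.U237.NF.Lite

/-!
# Project NF, package Z: from correlations along pairs of primes to relations between the frequencies
-/

set_option autoImplicit false

namespace Pool.Agent.U451.NF.Z

open Finset
open Pool.Agent.H807R2.Dav (ee dd)
open Pool.Agent.W24.Katai (Mul1 cor)
open Pool.Agent.U237.NF.Lite

/-- distance to the integers and distance from `e(θ)` to `1` -/
lemma far_dd (θ e : ℝ) (he : e ≤ ‖(θ : UnitAddCircle)‖) : 4 * e ≤ dd θ := by
  rw [UnitAddCircle.norm_eq] at he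
  have h1 : dd θ = dd (θ - round θ) := by
    have := Pool.Agent.H807R2.Dav.dd_add_int θ (-(round θ))
    rw [← this]; congr 1; push_cast; ring
  have h2 : dd (θ - round θ) = dd |θ - round θ| := by
    rcases abs_cases (θ - round θ) with h | h
    · rw [h.1]
    · rw [h.1, Pool.Agent.H807R2.Dav.dd_neg]
  have h3 : |θ - round θ| ≤ 1 / 2 := abs_sub_round θ
  have h4 := Pool.Agent.H807R2.Dav.dd_ge (abs_nonneg (θ - round θ)) (by linarith)
  rw [min_eq_left (by linarith)] at h4
  rw [h1, h2]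
  linarith

/-- telescoping with few changes -/
lemma tele (g : ℕ → ℕ → ℂ) (B : ℝ) (hB : ∀ i n, ‖g i n‖ ≤ B) (P : ℕ → Prop) [DecidablePred P]
    (hP : ∀ i, ¬ P i → g i = g (i + 1)) (m : ℕ) :
    ‖∑ i ∈ range m, (g i (i + 1) - g i i)‖ ≤ 2 * B + 2 * B * (((range m).filter P).card : ℝ) := by
  have h1 : ∑ i ∈ range m, (g i (i + 1) - g i i) =
      (g m m - g 0 0) + ∑ i ∈ range m, (g i (i + 1) - g (i + 1) (i + 1)) := by
    rw [← Finset.sum_range_sub (fun i => g i i) m, ← sum_add_distrib]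
    refine sum_congr rfl fun i _ => by ring
  rw [h1]
  refine (norm_add_le _ _).trans ?_
  have h2 : ‖g m m - g 0 0‖ ≤ 2 * B := by
    refine (norm_sub_le _ _).trans ?_
    have := hB m m
    have := hB 0 0
    linarith
  have h3 : ‖∑ i ∈ range m, (g i (i + 1) - g (i + 1) (i + 1))‖ ≤
      ∑ i ∈ range m, (if P i then 2 * B else 0) := by
    refine (norm_sum_le _ _).trans (sum_le_sum fun i _ => ?_)
    split_ifs with h
    · refine (norm_sub_le _ _).trans ?_
      have := hB i (i + 1)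
      have := hB (i + 1) (i + 1)
      linarith
    · rw [hP i h, sub_self, norm_zero]
  rw [← sum_filter, sum_const, nsmul_eq_mul] at h3
  linarith

/-- a monotone function has few changes -/
lemma changes (f : ℕ → ℕ) (hf : Monotone f) (m : ℕ) :
    ((range m).filter (fun i => f i ≠ f (i + 1))).card + f 0 ≤ f m := by
  induction m with
  | zero => simp
  | succ m ih =>
    rw [range_add_one, filter_insert]
    have h1 := hf (Nat.le_succ m)
    split_ifs with h
    · rw [card_insert_of_notMem (by simp)]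
      have : f m < f (m + 1) := lt_of_le_of_ne h1 h
      omega
    · omega

lemma kx_mono (H s : ℕ) : Monotone (kx H s) := by
  intro a b hab
  unfold kx
  exact Nat.div_le_div_right (by omega)

/-- the number of changes of the windows along the multiples of `p` -/
lemma changes_kx (H s p y M m : ℕ) (hs : s < H) (hp : p ≤ 2 * y) (hm : m ≤ M) :
    (((range m).filter (fun i => kx H s (p * (i + 1)) ≠ kx H s (p * (i + 1 + 1)))).card : ℝ) ≤
      2 * y * (M + 1) / H + 1 := by
  have hH : (0 : ℝ) < H := by exact_mod_cast (by omega : 0 < H)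
  have h1 := changes (fun i => kx H s (p * (i + 1)))
    (fun a b hab => kx_mono H s (Nat.mul_le_mul_left _ (by omega))) m
  have h2 : ((range m).filter (fun i => kx H s (p * (i + 1)) ≠ kx H s (p * (i + 1 + 1)))).card ≤
      (p * (m + 1) + s) / H := by
    have h3 : kx H s (p * (m + 1)) = (p * (m + 1) + s) / H := rfl
    have h1' : ((range m).filter (fun i => kx H s (p * (i + 1)) ≠ kx H s (p * (i + 1 + 1)))).card +
        kx H s (p * (0 + 1)) ≤ kx H s (p * (m + 1)) := h1
    omega
  have h3 : (((p * (m + 1) + s) / H : ℕ) : ℝ) ≤ ((p * (m + 1) + s : ℕ) : ℝ) / H := Nat.cast_div_le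
  have h4 : ((p * (m + 1) + s : ℕ) : ℝ) / H ≤ 2 * y * (M + 1) / H + 1 := by
    rw [div_add_one hH.ne']
    apply div_le_div_of_nonneg_right _ hH.le
    have h5 : p * (m + 1) + s ≤ 2 * y * (M + 1) + H := by
      have : p * (m + 1) ≤ 2 * y * (M + 1) := Nat.mul_le_mul hp (by omega)
      omega
    calc ((p * (m + 1) + s : ℕ) : ℝ) ≤ ((2 * y * (M + 1) + H : ℕ) : ℝ) := by exact_mod_cast h5
      _ = _ := by push_cast; ring
  have h5 : (((range m).filter (fun i => kx H s (p * (i + 1)) ≠ kx H s (p * (i + 1 + 1)))).card : ℝ) ≤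
      (((p * (m + 1) + s) / H : ℕ) : ℝ) := by exact_mod_cast h2
  linarith

/-- the difference of the frequencies at `n` -/
noncomputable def th (H s : ℕ) (al : ℕ → ℝ) (p q n : ℕ) : ℝ :=
  (p : ℝ) * al (kx H s (p * n)) - (q : ℝ) * al (kx H s (q * n))

/-- `n` is related -/
def Gd (H s : ℕ) (om : ℕ → ℂ) (al : ℕ → ℝ) (e : ℝ) (p q n : ℕ) : Prop :=
  om (kx H s (p * n)) ≠ 0 ∧ om (kx H s (q * n)) ≠ 0 ∧ ‖((th H s al p q n : ℝ) : UnitAddCircle)‖ ≤ e

/-- one of the windows changes after `n` -/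
def Ch (H s p q n : ℕ) : Prop :=
  kx H s (p * n) ≠ kx H s (p * (n + 1)) ∨ kx H s (q * n) ≠ kx H s (q * (n + 1))

open Classical in
lemma ch_card (H s p q y M m : ℕ) (hs : s < H) (hp : p ≤ 2 * y) (hq : q ≤ 2 * y) (hm : m ≤ M) :
    (((range m).filter (fun i => Ch H s p q (i + 1))).card : ℝ) ≤ 4 * y * (M + 1) / H + 2 := by
  have h1 := changes_kx H s p y M m hs hp hm
  have h2 := changes_kx H s q y M m hs hq hm
  have h3 : ((range m).filter (fun i => Ch H s p q (i + 1))).card ≤
      ((range m).filter (fun i => kx H s (p * (i + 1)) ≠ kx H s (p * (i + 1 + 1)))).card +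
      ((range m).filter (fun i => kx H s (q * (i + 1)) ≠ kx H s (q * (i + 1 + 1)))).card := by
    refine le_trans (card_le_card ?_) (card_union_le _ _)
    intro i hi
    simp only [mem_filter, mem_union] at hi ⊢
    rcases hi.2 with h | h
    · exact Or.inl ⟨hi.1, h⟩
    · exact Or.inr ⟨hi.1, h⟩
  have h4 : (((range m).filter (fun i => Ch H s p q (i + 1))).card : ℝ) ≤
      (((range m).filter (fun i => kx H s (p * (i + 1)) ≠ kx H s (p * (i + 1 + 1)))).card : ℝ) +
      (((range m).filter (fun i => kx H s (q * (i + 1)) ≠ kx H s (q * (i + 1 + 1)))).card : ℝ) := by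
    exact_mod_cast h3
  have h5 : (4 : ℝ) * y * (M + 1) / H + 2 = (2 * y * (M + 1) / H + 1) + (2 * y * (M + 1) / H + 1) := by
    ring
  rw [h5]
  linarith

lemma Fw_mul (H s : ℕ) (om : ℕ → ℂ) (al : ℕ → ℝ) (p q n : ℕ) :
    Fw H s om al (p * n) * (starRingEnd ℂ) (Fw H s om al (q * n)) =
      om (kx H s (p * n)) * (starRingEnd ℂ) (om (kx H s (q * n))) * ee ((n : ℝ) * th H s al p q n) := by
  unfold Fw th
  have h1 : (starRingEnd ℂ) (ee (((q * n : ℕ) : ℝ) * al (kx H s (q * n)))) =
      ee (-(((q * n : ℕ) : ℝ) * al (kx H s (q * n)))) := by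
    unfold ee
    rw [← Complex.exp_conj]
    congr 1
    simp only [map_mul, Complex.conj_ofReal, Complex.conj_I, map_ofNat]
    push_cast
    ring
  rw [map_mul, h1]
  have h2 : ee ((n : ℝ) * ((p : ℝ) * al (kx H s (p * n)) - (q : ℝ) * al (kx H s (q * n)))) =
      ee (((p * n : ℕ) : ℝ) * al (kx H s (p * n))) * ee (-(((q * n : ℕ) : ℝ) * al (kx H s (q * n)))) := by
    rw [← Pool.Agent.H807R2.Dav.ee_add]
    congr 1
    push_cast
    ring
  rw [h2]
  ring

lemma sum_Ioc_range {R : Type*} [AddCommMonoid R] (f : ℕ → R) (m : ℕ) :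
    ∑ n ∈ Ioc 0 m, f n = ∑ i ∈ range m, f (i + 1) := by
  induction m with
  | zero => simp
  | succ m ih => rw [sum_Ioc_succ_top (Nat.zero_le m), sum_range_succ, ih]

open Classical in
lemma card_Ioc_range (P : ℕ → Prop) (m : ℕ) :
    (((Ioc 0 m).filter P).card : ℝ) = ∑ i ∈ range m, (if P (i + 1) then (1 : ℝ) else 0) := by
  rw [← sum_Ioc_range (fun n => if P n then (1 : ℝ) else 0), ← sum_filter]
  simp

open Classical in
/-- the correlation along one pair -/
lemma pair1 (H s y M m : ℕ) (om : ℕ → ℂ) (al : ℕ → ℝ) (hom : ∀ k, ‖om k‖ ≤ 1) (p q : ℕ) (hp : p ≤ 2 * y)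
    (hq : q ≤ 2 * y) (hm : m ≤ M) (hs : s < H) (e : ℝ) (he : 0 < e) :
    ‖cor (Fw H s om al) p q m‖ ≤ (((Ioc 0 M).filter (fun n => Gd H s om al e p q n)).card : ℝ) +
      1 / (2 * e) * (1 + (4 * y * (M + 1) / H + 2)) := by
  set th' := th H s al p q with hth
  set co : ℕ → ℂ := fun n => om (kx H s (p * n)) * (starRingEnd ℂ) (om (kx H s (q * n))) with hco
  have hco1 : ∀ n, ‖co n‖ ≤ 1 := by
    intro n
    rw [hco]
    simp only [norm_mul, RCLike.norm_conj]
    exact mul_le_one₀ (hom _) (norm_nonneg _) (hom _)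
  set g : ℕ → ℕ → ℂ := fun i n => if ‖((th' (i + 1) : ℝ) : UnitAddCircle)‖ ≤ e then 0 else
    co (i + 1) * ee (((n + 1 : ℕ) : ℝ) * th' (i + 1)) / (ee (th' (i + 1)) - 1) with hg
  have hgB : ∀ i n, ‖g i n‖ ≤ 1 / (4 * e) := by
    intro i n
    rw [hg]
    simp only
    split_ifs with h
    · rw [norm_zero]; positivity
    · push Not at h
      have h1 := far_dd _ _ h.le
      have h2 : ‖ee (th' (i + 1)) - 1‖ = dd (th' (i + 1)) := by
        unfold dd; rw [norm_sub_rev]
      rw [norm_div, norm_mul, Pool.Agent.H807R2.Dav.norm_ee, mul_one, h2]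
      exact div_le_div₀ zero_le_one (hco1 _) (by positivity) h1
  have hgP : ∀ i, ¬ Ch H s p q (i + 1) → g i = g (i + 1) := by
    intro i hi
    unfold Ch at hi
    push Not at hi
    have h1 : th' (i + 1) = th' (i + 1 + 1) := by
      rw [hth]; unfold th; rw [hi.1, hi.2]
    have h2 : co (i + 1) = co (i + 1 + 1) := by
      rw [hco]; simp only; rw [hi.1, hi.2]
    funext n
    rw [hg]
    simp only
    rw [h1, h2]
  have h1 := tele g (1 / (4 * e)) hgB (fun i => Ch H s p q (i + 1)) hgP m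
  have h2 := ch_card H s p q y M m hs hp hq hm
  -- the terms
  have h3 : ∀ i, g i (i + 1) - g i i = if ‖((th' (i + 1) : ℝ) : UnitAddCircle)‖ ≤ e then 0 else
      Fw H s om al (p * (i + 1)) * (starRingEnd ℂ) (Fw H s om al (q * (i + 1))) := by
    intro i
    rw [hg]
    simp only
    split_ifs with h
    · simp
    · push Not at h
      have h5 := far_dd _ _ h.le
      have h6 : ee (th' (i + 1)) - 1 ≠ 0 := by
        intro h7
        have h8 : dd (th' (i + 1)) = 0 := by
          unfold dd; rw [norm_sub_rev, h7, norm_zero]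
        linarith
      rw [Fw_mul, ← hth]
      have h9 : ee (((i + 1 + 1 : ℕ) : ℝ) * th' (i + 1)) = ee (((i + 1 : ℕ) : ℝ) * th' (i + 1)) * ee (th' (i + 1)) := by
        rw [← Pool.Agent.H807R2.Dav.ee_add]
        congr 1
        push_cast
        ring
      rw [h9, ← sub_div, div_eq_iff h6]
      ring
  have h4 : cor (Fw H s om al) p q m = ∑ i ∈ range m,
      Fw H s om al (p * (i + 1)) * (starRingEnd ℂ) (Fw H s om al (q * (i + 1))) := by
    unfold cor
    exact sum_Ioc_range (fun n => Fw H s om al (p * n) * (starRingEnd ℂ) (Fw H s om al (q * n))) m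
  have h5 : cor (Fw H s om al) p q m = ∑ i ∈ range m, (g i (i + 1) - g i i) +
      ∑ i ∈ range m, (if ‖((th' (i + 1) : ℝ) : UnitAddCircle)‖ ≤ e then
        Fw H s om al (p * (i + 1)) * (starRingEnd ℂ) (Fw H s om al (q * (i + 1))) else 0) := by
    rw [h4, ← sum_add_distrib]
    refine sum_congr rfl fun i _ => ?_
    rw [h3]
    split_ifs <;> simp
  have h6 : ‖∑ i ∈ range m, (if ‖((th' (i + 1) : ℝ) : UnitAddCircle)‖ ≤ e then
        Fw H s om al (p * (i + 1)) * (starRingEnd ℂ) (Fw H s om al (q * (i + 1))) else 0)‖ ≤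
      (((Ioc 0 M).filter (fun n => Gd H s om al e p q n)).card : ℝ) := by
    rw [card_Ioc_range]
    refine (norm_sum_le _ _).trans ?_
    refine le_trans (sum_le_sum (g := fun i => if Gd H s om al e p q (i + 1) then (1 : ℝ) else 0)
      fun i _ => ?_) ?_
    · by_cases hG : Gd H s om al e p q (i + 1)
      · rw [if_pos hG]
        split_ifs with h
        · rw [Fw_mul, norm_mul, Pool.Agent.H807R2.Dav.norm_ee, mul_one]
          exact hco1 (i + 1)
        · rw [norm_zero]; exact zero_le_one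
      · rw [if_neg hG]
        split_ifs with h
        · have h7 : co (i + 1) = 0 := by
            by_contra h8
            apply hG
            refine ⟨?_, ?_, h⟩
            · intro h9; apply h8; rw [hco]; simp only; rw [h9, zero_mul]
            · intro h9; apply h8; rw [hco]; simp only; rw [h9, map_zero, mul_zero]
          have h8 : om (kx H s (p * (i + 1))) * (starRingEnd ℂ) (om (kx H s (q * (i + 1)))) = 0 := h7
          rw [Fw_mul, h8, zero_mul, norm_zero]
        · rw [norm_zero]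
    · refine sum_le_sum_of_subset_of_nonneg (range_subset_range.2 hm) fun i _ _ => ?_
      split_ifs <;> norm_num
  rw [h5]
  refine (norm_add_le _ _).trans ?_
  have h7 : 2 * (1 / (4 * e)) + 2 * (1 / (4 * e)) *
      (((range m).filter (fun i => Ch H s p q (i + 1))).card : ℝ) ≤
      1 / (2 * e) * (1 + (4 * y * (M + 1) / H + 2)) := by
    have h8 : 2 * (1 / (4 * e)) = 1 / (2 * e) := by field_simp; norm_num
    rw [h8]
    have h9 : (0 : ℝ) ≤ 1 / (2 * e) := by positivity
    have := mul_le_mul_of_nonneg_left h2 h9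
    linarith
  linarith

open Classical in
/-- from `n` to `z` -/
lemma pair2 (H s y M : ℕ) (om : ℕ → ℂ) (al : ℕ → ℝ) (p q : ℕ) (hp : p ≤ 2 * y)
    (hq : q ≤ 2 * y) (hp' : y ≤ p) (hq' : y ≤ q) (hy : 1 ≤ y) (hs : s < H) (e : ℝ) :
    (y : ℝ) ^ 2 * ((((Ioc 0 M).filter (fun n => Gd H s om al e p q n)).card : ℝ) -
      (4 * y * (M + 1) / H + 2)) ≤
      (((range (4 * y ^ 2 * (M + 1))).filter (fun z => Rel H s om al e z p q)).card : ℝ) := by
  have h1 := ch_card H s p q y M M hs hp hq le_rfl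
  have hsum : ∀ (K L : ℕ) (f : ℕ → ℝ), ∑ z ∈ range (K * L), f z = ∑ n ∈ range L, ∑ r ∈ range K, f (K * n + r) := by
    intro K L f
    induction L with
    | zero => simp
    | succ L ih => rw [Nat.mul_succ, sum_range_add, sum_range_succ, ih]
  have hpq : p * q * (M + 1) ≤ 4 * y ^ 2 * (M + 1) := by
    apply Nat.mul_le_mul_right
    calc p * q ≤ (2 * y) * (2 * y) := Nat.mul_le_mul hp hq
      _ = 4 * y ^ 2 := by ring
  have hpq' : (y : ℝ) ^ 2 ≤ ((p * q : ℕ) : ℝ) := by
    have : y ^ 2 ≤ p * q := by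
      calc y ^ 2 = y * y := by ring
        _ ≤ p * q := Nat.mul_le_mul hp' hq'
    exact_mod_cast this
  have h2 : (((range (4 * y ^ 2 * (M + 1))).filter (fun z => Rel H s om al e z p q)).card : ℝ) ≥
      ∑ z ∈ range (p * q * (M + 1)), (if Rel H s om al e z p q then (1 : ℝ) else 0) := by
    rw [← sum_filter, sum_const, nsmul_eq_mul, mul_one]
    exact_mod_cast card_le_card (filter_subset_filter _ (range_subset_range.2 hpq))
  have h3 : ∀ n : ℕ, Gd H s om al e p q n → ¬ Ch H s p q n → ∀ r ∈ range (p * q), Rel H s om al e (p * q * n + r) p q := by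
    intro n hG hC r hr
    have hr' := mem_range.1 hr
    have hp0 : 0 < p := by omega
    have hq0 : 0 < q := by omega
    unfold Ch at hC
    push Not at hC
    have e1 : (p * q * n + r) / q = p * n + r / q := by
      rw [show p * q * n + r = r + q * (p * n) by ring, Nat.add_mul_div_left _ _ hq0]
      ring
    have e2 : (p * q * n + r) / p = q * n + r / p := by
      rw [show p * q * n + r = r + p * (q * n) by ring, Nat.add_mul_div_left _ _ hp0]
      ring
    have e3 : r / q < p := Nat.div_lt_of_lt_mul (by rw [mul_comm]; exact hr')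
    have e4 : r / p < q := Nat.div_lt_of_lt_mul hr'
    have e5 : kx H s ((p * q * n + r) / q) = kx H s (p * n) := by
      rw [e1]
      apply le_antisymm
      · rw [hC.1]
        apply kx_mono
        rw [Nat.mul_succ]; omega
      · exact kx_mono H s (Nat.le_add_right _ _)
    have e6 : kx H s ((p * q * n + r) / p) = kx H s (q * n) := by
      rw [e2]
      apply le_antisymm
      · rw [hC.2]
        apply kx_mono
        rw [Nat.mul_succ]; omega
      · exact kx_mono H s (Nat.le_add_right _ _)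
    unfold Pool.Agent.U237.NF.Lite.Rel
    rw [e5, e6]
    exact ⟨hG.2.1, hG.1, hG.2.2⟩
  have h4 : ∑ i ∈ range M, (y : ℝ) ^ 2 * ((if Gd H s om al e p q (i + 1) then (1 : ℝ) else 0) -
      (if Ch H s p q (i + 1) then (1 : ℝ) else 0)) ≤
      ∑ z ∈ range (p * q * (M + 1)), (if Rel H s om al e z p q then (1 : ℝ) else 0) := by
    rw [hsum, sum_range_succ']
    have h5 : (0 : ℝ) ≤ ∑ r ∈ range (p * q), (if Rel H s om al e (p * q * 0 + r) p q then (1 : ℝ) else 0) :=
      sum_nonneg fun i _ => by split_ifs <;> norm_num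
    refine le_trans (sum_le_sum fun i _ => ?_) (le_add_of_nonneg_right h5)
    have h6 : (0 : ℝ) ≤ ∑ r ∈ range (p * q), (if Rel H s om al e (p * q * (i + 1) + r) p q then (1 : ℝ) else 0) :=
      sum_nonneg fun i _ => by split_ifs <;> norm_num
    by_cases hG : Gd H s om al e p q (i + 1)
    · by_cases hC : Ch H s p q (i + 1)
      · rw [if_pos hG, if_pos hC, sub_self, mul_zero]; exact h6
      · rw [if_pos hG, if_neg hC, sub_zero, mul_one]
        have h7 := h3 (i + 1) hG hC
        rw [sum_congr rfl (fun r hr => if_pos (h7 r hr)), sum_const, nsmul_eq_mul, mul_one, card_range]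
        exact hpq'
    · rw [if_neg hG]
      refine le_trans ?_ h6
      have : (0 : ℝ) ≤ (y : ℝ) ^ 2 := by positivity
      split_ifs <;> nlinarith
  rw [← mul_sum, sum_sub_distrib, ← card_Ioc_range, ← sum_filter] at h4
  simp only [sum_const, nsmul_eq_mul, mul_one] at h4
  have h5 : (0 : ℝ) ≤ (y : ℝ) ^ 2 := by positivity
  have h6 := mul_le_mul_of_nonneg_left h1 h5
  linarith

open Classical in
theorem t_Z : S_Z := by
  intro c hc hc1
  refine ⟨64 / c, ?_, ?_⟩
  · rw [le_div_iff₀ hc]; linarith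
  intro y H hy hH
  obtain ⟨M1, hM1⟩ := exists_nat_ge (4 / c)
  refine ⟨M1 + 2 * H, ?_⟩
  intro M hM s hs om al hom m hm hsum
  set C : ℝ := 64 / c with hC
  have hC0 : 0 < C := by positivity
  have hcC : c * C = 64 := by rw [hC]; field_simp
  have hy0 : (0 : ℝ) < y := by exact_mod_cast hy
  have hH0 : (0 : ℝ) < H := by
    have : (0 : ℝ) < C * y := by positivity
    linarith
  set e : ℝ := C * y / H with he
  have he0 : 0 < e := by positivity
  set Pc : ℝ := ((PB y).card : ℝ) with hPc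
  have hPc0 : 0 ≤ Pc := by positivity
  have hMr : (M1 : ℝ) + 2 * H ≤ M := by exact_mod_cast hM
  have hcM : 4 ≤ c * M := by
    have h1 : 4 / c ≤ M := by linarith
    rw [div_le_iff₀ hc] at h1
    linarith
  -- the error term `E := 4 y (M + 1) / H + 2`
  set E : ℝ := 4 * y * (M + 1) / H + 2 with hE
  have hE1 : E ≤ c / 16 * (M + 1) + 2 := by
    have h1 : 4 * (y : ℝ) * (M + 1) / H ≤ c / 16 * (M + 1) := by
      rw [div_le_iff₀ hH0]
      have h2 : 4 * (y : ℝ) ≤ c / 16 * H := by
        have h3 : c * (C * y) ≤ c * H := mul_le_mul_of_nonneg_left hH hc.le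
        have h4 : c * (C * y) = 64 * y := by rw [← mul_assoc, hcC]
        linarith
      have h5 : (0 : ℝ) ≤ (M : ℝ) + 1 := by positivity
      nlinarith [mul_le_mul_of_nonneg_right h2 h5]
    linarith
  -- the geometric sums
  have hgeo : 1 / (2 * e) * (1 + E) ≤ c / 16 * M := by
    have h1 : 1 / (2 * e) = c * H / (128 * y) := by
      rw [he, hC]; field_simp; norm_num
    have h2 : c * H / (128 * y) * (1 + E) = c * (H * 3 + 4 * y * (M + 1)) / (128 * y) := by
      rw [hE]; field_simp; ring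
    rw [h1, h2, div_le_iff₀ (by positivity)]
    have h3 : (H : ℝ) * 3 ≤ 3 / 2 * M := by
      have : (0 : ℝ) ≤ M1 := by positivity
      linarith
    have h4 : (1 : ℝ) ≤ M := by
      have : (0 : ℝ) ≤ M1 := by positivity
      have h6 : (1 : ℝ) ≤ H := by
        exact_mod_cast (by omega : 1 ≤ H)
      linarith
    have hy1 : (1 : ℝ) ≤ y := by exact_mod_cast hy
    have h5 : (H * 3 + 4 * y * (M + 1) : ℝ) ≤ 8 * y * M := by
      nlinarith [mul_nonneg (by linarith : (0 : ℝ) ≤ y - 1) (by linarith : (0 : ℝ) ≤ M - 1),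
        mul_nonneg (by linarith : (0 : ℝ) ≤ y - 1) (by linarith : (0 : ℝ) ≤ M)]
    calc c * (H * 3 + 4 * y * (M + 1)) ≤ c * (8 * y * M) := mul_le_mul_of_nonneg_left h5 hc.le
      _ = c / 16 * M * (128 * y) := by ring
  have hmem : ∀ p ∈ PB y, y ≤ p ∧ p ≤ 2 * y := by
    intro p hp
    have := mem_Ioc.1 (mem_filter.1 hp).1
    omega
  set G : ℕ → ℕ → ℝ := fun p q => (((Ioc 0 M).filter (fun n => Gd H s om al e p q n)).card : ℝ) with hG
  have h1 : ∑ p ∈ PB y, ∑ q ∈ PB y, ‖cor (Fw H s om al) p q (m p q)‖ ≤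
      ∑ p ∈ PB y, ∑ q ∈ PB y, G p q + Pc ^ 2 * (c / 16 * M) := by
    have h2 : ∀ p ∈ PB y, ∀ q ∈ PB y, ‖cor (Fw H s om al) p q (m p q)‖ ≤ G p q + c / 16 * M := by
      intro p hp q hq
      have := pair1 H s y M (m p q) om al hom p q (hmem p hp).2 (hmem q hq).2 (hm p hp q hq) hs e he0
      rw [← hE] at this
      linarith
    refine (sum_le_sum fun p hp => sum_le_sum fun q hq => h2 p hp q hq).trans (le_of_eq ?_)
    simp only [sum_add_distrib, sum_const, nsmul_eq_mul]
    rw [← hPc]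
    ring
  have h2 : ∑ z ∈ range (4 * y ^ 2 * (M + 1)),
      (((PB y ×ˢ PB y).filter (fun pq => Rel H s om al e z pq.1 pq.2)).card : ℝ) =
      ∑ p ∈ PB y, ∑ q ∈ PB y,
        (((range (4 * y ^ 2 * (M + 1))).filter (fun z => Rel H s om al e z p q)).card : ℝ) := by
    have h3 : ∀ z, (((PB y ×ˢ PB y).filter (fun pq => Rel H s om al e z pq.1 pq.2)).card : ℝ) =
        ∑ p ∈ PB y, ∑ q ∈ PB y, (if Rel H s om al e z p q then (1 : ℝ) else 0) := by
      intro z
      rw [card_filter]
      push_cast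
      rw [sum_product]
    simp_rw [h3]
    rw [sum_comm]
    refine sum_congr rfl fun p _ => ?_
    rw [sum_comm]
    refine sum_congr rfl fun q _ => ?_
    rw [card_filter]
    push_cast
    rfl
  have h3 : ∑ p ∈ PB y, ∑ q ∈ PB y, (y : ℝ) ^ 2 * (G p q - E) ≤
      ∑ p ∈ PB y, ∑ q ∈ PB y,
        (((range (4 * y ^ 2 * (M + 1))).filter (fun z => Rel H s om al e z p q)).card : ℝ) :=
    sum_le_sum fun p hp => sum_le_sum fun q hq =>
      pair2 H s y M om al p q (hmem p hp).2 (hmem q hq).2 (hmem p hp).1 (hmem q hq).1 hy hs e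
  have h4 : ∑ p ∈ PB y, ∑ q ∈ PB y, (y : ℝ) ^ 2 * (G p q - E) =
      (y : ℝ) ^ 2 * (∑ p ∈ PB y, ∑ q ∈ PB y, G p q) - (y : ℝ) ^ 2 * (Pc ^ 2 * E) := by
    simp_rw [← mul_sum, sum_sub_distrib, sum_const, nsmul_eq_mul]
    rw [← hPc]
    ring
  rw [h2]
  refine le_trans ?_ h3
  rw [h4]
  have h5 : c * Pc ^ 2 * M - Pc ^ 2 * (c / 16 * M) ≤ ∑ p ∈ PB y, ∑ q ∈ PB y, G p q := by linarith
  have h6 : c / 32 * Pc ^ 2 * ((4 * y ^ 2 * (M + 1) : ℕ) : ℝ) = (y : ℝ) ^ 2 * (Pc ^ 2 * (c / 8 * (M + 1))) := by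
    push_cast; ring
  rw [h6, ← mul_sub]
  apply mul_le_mul_of_nonneg_left _ (by positivity)
  have h7 : Pc ^ 2 * (c / 8 * (M + 1)) ≤ Pc ^ 2 * (c * M - c / 16 * M - E) := by
    apply mul_le_mul_of_nonneg_left _ (by positivity)
    nlinarith
  nlinarith

end Pool.Agent.U451.NF.Z
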